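import Pool.Agent.H53.NotBi

/-!
Problem MP_5cf697_lc, Q1 (negated form): a finite graph `Γ` with nonempty vertex set such that the
partially commutative metabelian group `M_Γ` has trivial centre but is not bi-interpretable
with `ℕ`. The graph is the 4-cycle `K_{2,2}`.
-/

namespace Pool.Agent.Results.MP_5cf697_lc.Counterexample

open Pool.Agent.H53

/-- For the 4-cycle `Γ = K_{2,2}`, the group `M_Γ` has trivial centre and is not bi-interpretable
with `(ℕ; +, ·, 0, 1)`. -/
theorem result :
    Subgroup.center (PCMetabelianGroup (completeBipartiteGraph (Fin 2) (Fin 2))) = ⊥ ∧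
    ¬ BiInterpretable groupLang (PCMetabelianGroup (completeBipartiteGraph (Fin 2) (Fin 2)))
      natLang ℕ := by
  rw [← join_bot]
  let e := joinEquiv (⊥ : SimpleGraph (Fin 2)) (⊥ : SimpleGraph (Fin 2))
  constructor
  · rw [eq_bot_iff]
    intro z hz
    rw [Subgroup.mem_center_iff] at hz
    have h1 : e z ∈ Subgroup.center (PCMetabelianGroup (⊥ : SimpleGraph (Fin 2)) ×
        PCMetabelianGroup (⊥ : SimpleGraph (Fin 2))) := by
      rw [Subgroup.mem_center_iff]
      intro g
      obtain ⟨x, rfl⟩ := e.surjective g
      rw [← map_mul, ← map_mul, hz x]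
    rw [Subgroup.center_prod, center_rank_two, Subgroup.mem_prod, Subgroup.mem_bot,
      Subgroup.mem_bot] at h1
    have h2 : e z = 1 := Prod.ext h1.1 h1.2
    rw [Subgroup.mem_bot]
    exact e.map_eq_one_iff.1 h2
  · have := pc_infinite (⊥ : SimpleGraph (Fin 2))
    exact not_biInterpretable_of_prod e

end Pool.Agent.Results.MP_5cf697_lc.Counterexample
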